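import Pool.Agent.helper13.BN.Defs2
import Pool.Agent.helper19.BN.AxInt
import Pool.Agent.helper73.BN.Zonal
import Pool.Agent.helper52.BN.Ode

/-!
# MP_94a57f_an, module C4b: integrals in cylinder coordinates and their convergence
-/

set_option autoImplicit false
open MeasureTheory Filter Topology Set Metric
open scoped ContDiff Gradient RealInnerProductSpace ENNReal

noncomputable section
namespace Pool.Agent.helper13.BN
variable {N : ℕ}

theorem exp_subst {L : ℝ} (hL : 0 < L) {g : ℝ → ℝ} (hg : ContinuousOn g (Icc (Real.exp (-L)) 1)) :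
    ∫ r in (Real.exp (-L))..1, g r = ∫ t in (0 : ℝ)..L, Real.exp (-t) * g (Real.exp (-t)) := by
  have himg : (fun t : ℝ => Real.exp (-t)) '' uIcc 0 L ⊆ Icc (Real.exp (-L)) 1 := by
    rintro _ ⟨t, ht, rfl⟩
    rw [uIcc_of_le hL.le] at ht
    exact ⟨Real.exp_le_exp.mpr (by linarith [ht.2]), by
      rw [← Real.exp_zero]; exact Real.exp_le_exp.mpr (by linarith [ht.1])⟩
  have h := intervalIntegral.integral_comp_mul_deriv' (a := 0) (b := L)
    (f := fun t : ℝ => Real.exp (-t)) (f' := fun t => -Real.exp (-t)) (g := g)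
    (fun t _ => by
      have := (hasDerivAt_neg t).exp
      simpa using this)
    (by fun_prop) (hg.mono himg)
  simp only [neg_zero, Real.exp_zero] at h
  rw [intervalIntegral.integral_symm, ← h, ← intervalIntegral.integral_neg]
  apply intervalIntegral.integral_congr
  intro t _
  simp only [Function.comp]
  ring

theorem av_const_mul (c : ℝ) (q : ℝ → ℝ) : av N (fun s => c * q s) = c * av N q := by
  unfold av
  have : (fun s => c * q s * wt N s) = fun s => c * (q s * wt N s) := by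
    funext s; ring
  rw [this, intervalIntegral.integral_const_mul, mul_div_assoc]

theorem wt_continuous (hN : 3 ≤ N) : Continuous (wt N) := by
  unfold wt
  have h3 : (3 : ℝ) ≤ N := by exact_mod_cast hN
  exact (Real.continuous_rpow_const (by linarith)).comp (by fun_prop)

theorem wt_nonneg {s : ℝ} (hs : s ∈ Icc (-1 : ℝ) 1) : 0 ≤ wt N s := by
  unfold wt
  apply Real.rpow_nonneg
  nlinarith [hs.1, hs.2]

theorem wt_pos {s : ℝ} (hs : s ∈ Ioo (-1 : ℝ) 1) : 0 < wt N s := by
  unfold wt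
  apply Real.rpow_pos_of_pos
  nlinarith [hs.1, hs.2]

theorem wt_int_pos (hN : 3 ≤ N) : 0 < ∫ s in (-1 : ℝ)..1, wt N s := by
  refine intervalIntegral.integral_pos (by norm_num) (wt_continuous hN).continuousOn
    (fun s hs => wt_nonneg ⟨hs.1.le, hs.2⟩) ⟨0, by norm_num, wt_pos (by norm_num)⟩

/-- averages depend continuously on parameters -/
theorem av_continuous (hN : 3 ≤ N) {X : Type*} [TopologicalSpace X] {q : X → ℝ → ℝ}
    (hq : Continuous (fun z : X × ℝ => q z.1 z.2)) : Continuous (fun x => av N (q x)) := by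
  unfold av
  apply Continuous.div_const
  apply intervalIntegral.continuous_parametric_intervalIntegral_of_continuous'
  exact hq.mul ((wt_continuous hN).comp continuous_snd)

theorem av_sq_pos (hN : 3 ≤ N) (j : ℕ) : 0 < av N (fun s => Pz N j s ^ 2) := by
  unfold av
  apply div_pos _ (wt_int_pos hN)
  have hP : Continuous (Pz N j) := continuous_Pz N j
  have h1 : Pz N j 1 = 1 := Pz_at_one N j hN
  have hnear : ∀ᶠ s in 𝓝 (1 : ℝ), 0 < Pz N j s :=
    (hP.tendsto 1).eventually (eventually_gt_nhds (by rw [h1]; norm_num))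
  obtain ⟨ε, hε, hball⟩ := Metric.eventually_nhds_iff.mp hnear
  set s₀ : ℝ := 1 - min (ε / 2) (1 / 2) with hs₀
  have hm1 : 0 < min (ε / 2) (1 / 2) := lt_min (by linarith) (by norm_num)
  have hm2 : min (ε / 2) (1 / 2) ≤ ε / 2 := min_le_left _ _
  have hm3 : min (ε / 2) (1 / 2) ≤ 1 / 2 := min_le_right _ _
  have hP0 : 0 < Pz N j s₀ := by
    apply hball
    rw [Real.dist_eq, abs_lt]
    constructor <;> linarith
  refine intervalIntegral.integral_pos (by norm_num)
    ((hP.pow 2).mul (wt_continuous hN)).continuousOn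
    (fun s hs => mul_nonneg (by positivity) (wt_nonneg ⟨hs.1.le, hs.2⟩))
    ⟨s₀, ⟨by linarith, by linarith⟩, mul_pos (by positivity) (wt_pos ⟨by linarith, by linarith⟩)⟩

/-- `∫ φ² = κ ∫ e^{-2t} y² av(P²)` (with the `κ` of `exists_axis`; the same for all) -/
theorem exists_conf (N : ℕ) (hN : 3 ≤ N) : ∃ κ : ℝ, 0 < κ ∧ ∀ (e : E N), ‖e‖ = 1 →
    (∀ (L : ℝ) (j : ℕ) (y z : ℝ → ℝ), 0 < L → Continuous y → Continuous z →
      ∫ x in ann N (Real.exp (-L)), cyl N e y (Pz N j) x * cyl N e z (Pz N j) x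
        = κ * ∫ t in (0 : ℝ)..L, Real.exp (-2 * t) * (y t * z t * av N (fun s => Pz N j s ^ 2))) ∧
    (∀ (L : ℝ) (l : ℕ) (y z : ℝ → ℝ) (G : ℝ → ℝ → ℝ), 0 < L → Continuous y → Continuous z →
      Continuous (fun p : ℝ × ℝ => G p.1 p.2) →
      (∀ τ u v : ℝ, 0 < τ → G (τ * u) (τ * v) = τ ^ ts N * G u v) →
      ∫ x in ann N (Real.exp (-L)), G (cyl N e y (Pz N 0) x) (cyl N e z (Pz N l) x)
        = κ * cI N l y z L G) := by
  obtain ⟨κ, hκ, hax⟩ := exists_axis N hN
  have hN3 : (3 : ℝ) ≤ N := by exact_mod_cast hN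
  refine ⟨κ, hκ, fun e he => ⟨?_, ?_⟩⟩
  · intro L j y z hL hy hz
    have ha : 0 < Real.exp (-L) := Real.exp_pos _
    have ha1 : Real.exp (-L) < 1 := by
      rw [← Real.exp_zero]; exact Real.exp_lt_exp.mpr (by linarith)
    set k : ℝ → ℝ → ℝ := fun r s => (r ^ (-cc N) * y (-Real.log r) * Pz N j s) *
      (r ^ (-cc N) * z (-Real.log r) * Pz N j s) with hk
    have hc1 : ∀ w : ℝ → ℝ, Continuous w → ContinuousOn
        (fun r : ℝ => r ^ (-cc N) * w (-Real.log r)) (Icc (Real.exp (-L)) 1) := by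
      intro w hw r hr
      have hr0 : r ≠ 0 := (ha.trans_le hr.1).ne'
      have h1 : ContinuousAt (fun r : ℝ => r ^ (-cc N)) r :=
        Real.continuousAt_rpow_const _ _ (Or.inl hr0)
      have h2 : ContinuousAt (fun r : ℝ => w (-Real.log r)) r :=
        hw.continuousAt.comp ((Real.continuousAt_log hr0).neg)
      exact (h1.mul h2).continuousWithinAt
    have hcont : ContinuousOn (fun p : ℝ × ℝ => k p.1 p.2) (Icc (Real.exp (-L)) 1 ×ˢ Icc (-1) 1) := by
      have hP : ContinuousOn (fun p : ℝ × ℝ => Pz N j p.2) (Icc (Real.exp (-L)) 1 ×ˢ Icc (-1) 1) :=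
        ((continuous_Pz N j).comp continuous_snd).continuousOn
      have h1 := (hc1 y hy).comp (continuous_fst.continuousOn
        (s := Icc (Real.exp (-L)) 1 ×ˢ Icc (-1 : ℝ) 1)) (fun p hp => hp.1)
      have h2 := (hc1 z hz).comp (continuous_fst.continuousOn
        (s := Icc (Real.exp (-L)) 1 ×ˢ Icc (-1 : ℝ) 1)) (fun p hp => hp.1)
      exact (h1.mul hP).mul (h2.mul hP)
    have h := hax e he (Real.exp (-L)) 1 ha ha1 k hcont
    have hset : ann N (Real.exp (-L)) = {x : E N | Real.exp (-L) < ‖x‖ ∧ ‖x‖ < 1} := rfl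
    rw [hset]
    have hav : ∀ r : ℝ, av N (k r) = (r ^ (-cc N) * y (-Real.log r)) *
        (r ^ (-cc N) * z (-Real.log r)) * av N (fun s => Pz N j s ^ 2) := by
      intro r
      rw [← av_const_mul]
      congr 1
      funext s
      simp only [hk]
      ring
    have e1 : ∫ x in {x : E N | Real.exp (-L) < ‖x‖ ∧ ‖x‖ < 1},
        cyl N e y (Pz N j) x * cyl N e z (Pz N j) x =
        ∫ x in {x : E N | Real.exp (-L) < ‖x‖ ∧ ‖x‖ < 1}, k ‖x‖ (⟪x, e⟫ / ‖x‖) := rfl
    rw [e1, h]
    congr 1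
    rw [exp_subst hL]
    · apply intervalIntegral.integral_congr
      intro t _
      simp only [hav]
      rw [Real.log_exp, neg_neg, ← Real.exp_mul, ← Real.exp_nat_mul]
      have e2 : Real.exp (-t) * (Real.exp (((N - 1 : ℕ) : ℝ) * -t) *
          (Real.exp (-t * -cc N) * y t * (Real.exp (-t * -cc N) * z t) *
            av N (fun s => Pz N j s ^ 2))) =
          (Real.exp (-t) * Real.exp (((N - 1 : ℕ) : ℝ) * -t) * Real.exp (-t * -cc N) *
            Real.exp (-t * -cc N)) * (y t * z t * av N (fun s => Pz N j s ^ 2)) := by ring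
      rw [e2, ← Real.exp_add, ← Real.exp_add, ← Real.exp_add]
      congr 2
      have e3 : ((N - 1 : ℕ) : ℝ) = N - 1 := by
        rw [Nat.cast_sub (by omega)]; simp
      rw [e3, cc]
      ring
    · have h4 : ContinuousOn (fun r : ℝ => r ^ (N - 1) * ((r ^ (-cc N) * y (-Real.log r)) *
        (r ^ (-cc N) * z (-Real.log r)) * av N (fun s => Pz N j s ^ 2)))
        (Icc (Real.exp (-L)) 1) :=
        (continuous_pow _).continuousOn.mul (((hc1 y hy).mul (hc1 z hz)).mul continuousOn_const)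
      refine h4.congr fun r _ => ?_
      simp only [hav]
  · intro L l y z G hL hy hz hG hhom
    have ha : 0 < Real.exp (-L) := Real.exp_pos _
    have ha1 : Real.exp (-L) < 1 := by
      rw [← Real.exp_zero]; exact Real.exp_lt_exp.mpr (by linarith)
    set k : ℝ → ℝ → ℝ := fun r s => G (r ^ (-cc N) * y (-Real.log r) * Pz N 0 s)
      (r ^ (-cc N) * z (-Real.log r) * Pz N l s) with hk
    have hc1 : ∀ (w : ℝ → ℝ) (j : ℕ), Continuous w → ContinuousOn
        (fun p : ℝ × ℝ => p.1 ^ (-cc N) * w (-Real.log p.1) * Pz N j p.2)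
        (Icc (Real.exp (-L)) 1 ×ˢ Icc (-1) 1) := by
      intro w j hw
      have h0 : ContinuousOn (fun r : ℝ => r ^ (-cc N) * w (-Real.log r))
          (Icc (Real.exp (-L)) 1) := by
        intro r hr
        have hr0 : r ≠ 0 := (ha.trans_le hr.1).ne'
        have h1 : ContinuousAt (fun r : ℝ => r ^ (-cc N)) r :=
          Real.continuousAt_rpow_const _ _ (Or.inl hr0)
        have h2 : ContinuousAt (fun r : ℝ => w (-Real.log r)) r :=
          hw.continuousAt.comp ((Real.continuousAt_log hr0).neg)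
        exact (h1.mul h2).continuousWithinAt
      have h1 := h0.comp (continuous_fst.continuousOn
        (s := Icc (Real.exp (-L)) 1 ×ˢ Icc (-1 : ℝ) 1)) (fun p hp => hp.1)
      exact h1.mul ((continuous_Pz N j).comp continuous_snd).continuousOn
    have hcont : ContinuousOn (fun p : ℝ × ℝ => k p.1 p.2)
        (Icc (Real.exp (-L)) 1 ×ˢ Icc (-1) 1) :=
      hG.comp_continuousOn ((hc1 y 0 hy).prodMk (hc1 z l hz))
    have h := hax e he (Real.exp (-L)) 1 ha ha1 k hcont
    have hset : ann N (Real.exp (-L)) = {x : E N | Real.exp (-L) < ‖x‖ ∧ ‖x‖ < 1} := rfl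
    rw [hset]
    have hkt : ∀ t s : ℝ, k (Real.exp (-t)) s =
        Real.exp (N * t) * G (y t) (z t * Pz N l s) := by
      intro t s
      simp only [hk]
      rw [Real.log_exp, neg_neg, Pz_zero, mul_one, mul_assoc, ← Real.exp_mul,
        hhom _ _ _ (Real.exp_pos _), ← Real.exp_mul]
      congr 2
      have hne : (N : ℝ) - 2 ≠ 0 := by linarith
      rw [cc, ts]
      field_simp
    have hav : ∀ t : ℝ, av N (k (Real.exp (-t))) =
        Real.exp (N * t) * av N (fun s => G (y t) (z t * Pz N l s)) := by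
      intro t
      rw [← av_const_mul]
      congr 1
      funext s
      exact hkt t s
    have e1 : ∫ x in {x : E N | Real.exp (-L) < ‖x‖ ∧ ‖x‖ < 1},
        G (cyl N e y (Pz N 0) x) (cyl N e z (Pz N l) x) =
        ∫ x in {x : E N | Real.exp (-L) < ‖x‖ ∧ ‖x‖ < 1}, k ‖x‖ (⟪x, e⟫ / ‖x‖) := rfl
    rw [e1, h]
    congr 1
    rw [exp_subst hL]
    · rw [cI]
      apply intervalIntegral.integral_congr
      intro t _
      simp only [hav]
      rw [← Real.exp_nat_mul]
      have e2 : Real.exp (-t) * (Real.exp (((N - 1 : ℕ) : ℝ) * -t) *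
          (Real.exp (N * t) * av N (fun s => G (y t) (z t * Pz N l s)))) =
          (Real.exp (-t) * Real.exp (((N - 1 : ℕ) : ℝ) * -t) * Real.exp (N * t)) *
            av N (fun s => G (y t) (z t * Pz N l s)) := by ring
      rw [e2, ← Real.exp_add, ← Real.exp_add]
      have e3 : ((N - 1 : ℕ) : ℝ) = N - 1 := by
        rw [Nat.cast_sub (by omega)]; simp
      rw [e3]
      have e4 : -t + ((N : ℝ) - 1) * -t + N * t = 0 := by ring
      rw [e4, Real.exp_zero, one_mul]
    · -- continuity of `r ↦ r^(N-1) av (k r)`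
      have h5 : ContinuousOn (fun r : ℝ => r ^ (N - 1) *
          (r ^ (-(N : ℝ)) * av N (fun s => G (y (-Real.log r)) (z (-Real.log r) * Pz N l s))))
          (Icc (Real.exp (-L)) 1) := by
        apply (continuous_pow _).continuousOn.mul
        intro r hr
        have hr0 : r ≠ 0 := (ha.trans_le hr.1).ne'
        have h1 : ContinuousAt (fun r : ℝ => r ^ (-(N : ℝ))) r :=
          Real.continuousAt_rpow_const _ _ (Or.inl hr0)
        have h2 : Continuous (fun t : ℝ => av N (fun s => G (y t) (z t * Pz N l s))) := by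
          apply av_continuous hN
          exact hG.comp ((hy.comp continuous_fst).prodMk
            ((hz.comp continuous_fst).mul ((continuous_Pz N l).comp continuous_snd)))
        have h3 : ContinuousAt
            (fun r : ℝ => av N (fun s => G (y (-Real.log r)) (z (-Real.log r) * Pz N l s))) r :=
          h2.continuousAt.comp (f := fun r : ℝ => -Real.log r) ((Real.continuousAt_log hr0).neg)
        exact (h1.mul h3).continuousWithinAt
      refine h5.congr fun r hr => ?_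
      have hr0 : 0 < r := ha.trans_le hr.1
      have h6 := hav (-Real.log r)
      rw [neg_neg, Real.exp_log hr0] at h6
      simp only [h6]
      congr 2
      rw [mul_comm, Real.exp_mul, Real.exp_neg, Real.exp_log hr0, Real.rpow_neg hr0.le,
        Real.inv_rpow hr0.le]

/-- convergence of the integrals along the data -/
theorem cI_tendsto (hN : 3 ≤ N) (D : Cr N) {G : ℝ → ℝ → ℝ → ℝ}
    (hG : Continuous (fun p : ℝ × ℝ × ℝ => G p.1 p.2.1 p.2.2)) {b : ℝ} :
    ∀ ε > 0, ∃ δ > 0, ∀ᶠ i in atTop, ∀ b' : ℝ, |b' - b| < δ →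
      |cI N D.l (yf (cc N) (D.lam1 i)) (yf (D.l + cc N) (D.lam2 i)) (D.Ls i) (G b')
        - cI N D.l (yf (cc N) D.lam) (yf (D.l + cc N) D.lam) D.L (G b)| < ε := by
  -- the integral as a continuous function of all parameters
  have h0 : Continuous (fun z : (ℝ × ℝ × ℝ) × ℝ =>
      av N (fun s => G z.1.1 (yf (cc N) z.1.2.1 z.2)
        (yf (D.l + cc N) z.1.2.2 z.2 * Pz N D.l s))) := by
    apply av_continuous hN
    have y1 := (yf_continuous (cc N)).1
    have y2 := (yf_continuous ((D.l : ℝ) + cc N)).1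
    have c1 : Continuous (fun w : ((ℝ × ℝ × ℝ) × ℝ) × ℝ => yf (cc N) w.1.1.2.1 w.1.2) :=
      y1.comp (f := fun w : ((ℝ × ℝ × ℝ) × ℝ) × ℝ => (w.1.1.2.1, w.1.2)) (by fun_prop)
    have c2 : Continuous (fun w : ((ℝ × ℝ × ℝ) × ℝ) × ℝ =>
        yf ((D.l : ℝ) + cc N) w.1.1.2.2 w.1.2) :=
      y2.comp (f := fun w : ((ℝ × ℝ × ℝ) × ℝ) × ℝ => (w.1.1.2.2, w.1.2)) (by fun_prop)
    have c3 : Continuous (fun w : ((ℝ × ℝ × ℝ) × ℝ) × ℝ => Pz N D.l w.2) :=
      (continuous_Pz N D.l).comp continuous_snd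
    exact hG.comp (f := fun w : ((ℝ × ℝ × ℝ) × ℝ) × ℝ =>
      (w.1.1.1, yf (cc N) w.1.1.2.1 w.1.2, yf ((D.l : ℝ) + cc N) w.1.1.2.2 w.1.2 * Pz N D.l w.2))
      ((by fun_prop : Continuous fun w : ((ℝ × ℝ × ℝ) × ℝ) × ℝ => w.1.1.1).prodMk
        (c1.prodMk (c2.mul c3)))
  have h1 : Continuous (fun z : (ℝ × ℝ × ℝ) × ℝ =>
      cI N D.l (yf (cc N) z.1.2.1) (yf (D.l + cc N) z.1.2.2) z.2 (G z.1.1)) :=
    intervalIntegral.continuous_parametric_primitive_of_continuous (a₀ := 0)
      (f := fun (x : ℝ × ℝ × ℝ) (t : ℝ) => av N (fun s => G x.1 (yf (cc N) x.2.1 t)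
        (yf (D.l + cc N) x.2.2 t * Pz N D.l s))) h0
  intro ε hε
  have h2 := (Metric.continuous_iff.mp h1) ((b, D.lam, D.lam), D.L) ε hε
  obtain ⟨δ, hδ, h3⟩ := h2
  refine ⟨δ, hδ, ?_⟩
  have t1 := (Metric.tendsto_nhds.mp D.t1) δ hδ
  have t2 := (Metric.tendsto_nhds.mp D.t2) δ hδ
  have tL := (Metric.tendsto_nhds.mp D.tL) δ hδ
  filter_upwards [t1, t2, tL] with i e1 e2 e3 b' hb'
  have h4 := h3 ((b', D.lam1 i, D.lam2 i), D.Ls i) (by
    rw [Prod.dist_eq, Prod.dist_eq, Prod.dist_eq]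
    refine max_lt (max_lt ?_ (max_lt e1 e2)) e3
    rw [Real.dist_eq]
    exact hb')
  rw [Real.dist_eq] at h4
  exact h4

theorem n_tendsto (hN : 3 ≤ N) (D : Cr N) :
    Tendsto (fun i => ∫ t in (0 : ℝ)..(D.Ls i),
        Real.exp (-2 * t) * yf (cc N) (D.lam1 i) t ^ 2) atTop
      (𝓝 (∫ t in (0 : ℝ)..D.L, Real.exp (-2 * t) * yf (cc N) D.lam t ^ 2)) ∧
    Tendsto (fun i => ∫ t in (0 : ℝ)..(D.Ls i),
        Real.exp (-2 * t) * (yf (D.l + cc N) (D.lam2 i) t ^ 2 * av N (fun s => Pz N D.l s ^ 2)))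
      atTop
      (𝓝 (∫ t in (0 : ℝ)..D.L,
        Real.exp (-2 * t) * (yf (D.l + cc N) D.lam t ^ 2 * av N (fun s => Pz N D.l s ^ 2)))) ∧
    0 < (∫ t in (0 : ℝ)..D.L, Real.exp (-2 * t) * yf (cc N) D.lam t ^ 2) ∧
    0 < (∫ t in (0 : ℝ)..D.L,
        Real.exp (-2 * t) * (yf (D.l + cc N) D.lam t ^ 2 * av N (fun s => Pz N D.l s ^ 2))) := by
  have y1 := (yf_continuous (cc N)).1
  have y2 := (yf_continuous ((D.l : ℝ) + cc N)).1
  have hexp : Continuous (fun z : ℝ × ℝ => Real.exp (-2 * z.2)) := by fun_prop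
  have h1 : Continuous (fun z : ℝ × ℝ => ∫ t in (0 : ℝ)..z.2,
      Real.exp (-2 * t) * yf (cc N) z.1 t ^ 2) :=
    intervalIntegral.continuous_parametric_primitive_of_continuous (a₀ := 0)
      (f := fun (x : ℝ) (t : ℝ) => Real.exp (-2 * t) * yf (cc N) x t ^ 2)
      (hexp.mul (y1.pow 2))
  have h2 : Continuous (fun z : ℝ × ℝ => ∫ t in (0 : ℝ)..z.2,
      Real.exp (-2 * t) * (yf (D.l + cc N) z.1 t ^ 2 * av N (fun s => Pz N D.l s ^ 2))) :=
    intervalIntegral.continuous_parametric_primitive_of_continuous (a₀ := 0)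
      (f := fun (x : ℝ) (t : ℝ) => Real.exp (-2 * t) *
        (yf (D.l + cc N) x t ^ 2 * av N (fun s => Pz N D.l s ^ 2)))
      (hexp.mul ((y2.pow 2).mul continuous_const))
  refine ⟨?_, ?_, ?_, ?_⟩
  · exact (h1.tendsto (D.lam, D.L)).comp (D.t1.prodMk_nhds D.tL)
  · exact (h2.tendsto (D.lam, D.L)).comp (D.t2.prodMk_nhds D.tL)
  · obtain ⟨z, hz, hnode⟩ := D.node
    have hcont : Continuous (fun t : ℝ => Real.exp (-2 * t) * yf (cc N) D.lam t ^ 2) := by
      have := (yf_contDiff (cc N) D.lam).continuous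
      fun_prop
    refine intervalIntegral.integral_pos D.hL hcont.continuousOn
      (fun t _ => by positivity) ⟨z / 2, ⟨by linarith [hz.1], by linarith [hz.1, hz.2]⟩, ?_⟩
    have hne : yf (cc N) D.lam (z / 2) ≠ 0 := by
      intro h0
      have := (hnode (z / 2) ⟨by linarith [hz.1], by linarith [hz.1, hz.2]⟩).mp h0
      linarith [hz.1]
    positivity
  · have hcont : Continuous (fun t : ℝ => Real.exp (-2 * t) *
        (yf (D.l + cc N) D.lam t ^ 2 * av N (fun s => Pz N D.l s ^ 2))) := by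
      have := (yf_contDiff ((D.l : ℝ) + cc N) D.lam).continuous
      fun_prop
    have hav := av_sq_pos hN D.l
    refine intervalIntegral.integral_pos D.hL hcont.continuousOn
      (fun t _ => by positivity) ⟨D.L / 2, ⟨by linarith [D.hL], by linarith [D.hL]⟩, ?_⟩
    have hpos := D.pos (D.L / 2) ⟨by linarith [D.hL], by linarith [D.hL]⟩
    positivity

end Pool.Agent.helper13.BN
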